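import Pool.Agent.Q289.KW.Limit

/-!
# The k-width of a sequence of random intervals

For every `k` the expected `k`-width of a sequence of `n` independent random intervals, divided by
`n`, tends to `1 / (k + 1)`.
-/

set_option autoImplicit false

open MeasureTheory Filter Topology Q289.KW

namespace Pool.Agent.Results.MP_46e774_pr.SequenceLimit

theorem result (k : ℕ) : Tendsto (fun n : ℕ =>
    (∫ ω, (kWidth k (seqLt ω) : ℝ) ∂(law n)) / n) atTop (𝓝 (1 / ((k : ℝ) + 1))) :=
  tendsto_seq k

end Pool.Agent.Results.MP_46e774_pr.SequenceLimit
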